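import Pool.Agent.H25.LF.Targets
import Pool.Agent.H30.PF.FA
import Pool.Agent.H30.PF.GM
import Pool.Agent.H48.PF.BT
import Pool.Agent.H33.PF.EU
import Pool.Agent.H33.PF.EX
import Pool.Agent.H33.PF.M8
import Pool.Agent.H33.PF.TR
import Pool.Agent.H12.PF.MR
import Pool.Agent.H74.PF.E1
import Pool.Agent.H74.PF.E2
import Pool.Agent.H74.PF.PN
import Pool.Agent.H65.PF.RT
import Pool.Agent.H65.PF.SG

/-!
The splits `n = k + m` with large prime factors, with the explicit proportion.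
-/

set_option autoImplicit false

open Finset Real ArithmeticFunction

namespace Pool.Agent.H25.LF

open Pool.Agent.H30.PF (S8 pr Good)

open Classical in
/-- FIN2. The splits, with the proportion `1 - bb θ₁ - bb θ₂`. -/
def T_FIN2 : Prop := ∀ θ₁ θ₂ ε δ : ℝ, 0 < θ₁ → θ₁ < 1 → 0 < θ₂ → θ₂ < 1 → 0 < ε → 0 < δ →
  ∃ n₀ : ℕ, ∀ n : ℕ, n₀ ≤ n →
    (1 - bb θ₁ - bb θ₂ - δ) * n ≤ (((Icc 1 (n - 1)).filter (fun k => Good ε n k (n - k) ∧
      (∃ l : ℕ, l.Prime ∧ l ∣ pr k ^ 2 - 2 ∧ (n : ℝ) ^ θ₁ < l) ∧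
      (∃ l : ℕ, l.Prime ∧ l ∣ pr (n - k) ^ 2 - 2 ∧ (n : ℝ) ^ θ₂ < l))).card : ℝ)

lemma le_pr (n : ℕ) (hn : 1 ≤ n) : n ≤ pr n := by
  have := Nat.add_two_le_nth_prime (n - 1)
  unfold pr
  omega

lemma pr_prime (n : ℕ) : (pr n).Prime := Nat.prime_nth_prime _

lemma pr_strictMono {a b : ℕ} (ha : 1 ≤ a) (h : a < b) : pr a < pr b := by
  unfold pr
  exact Nat.nth_strictMono Nat.infinite_setOfPred_prime (by omega)

lemma pr_mono {a b : ℕ} (h : a ≤ b) : pr a ≤ pr b := by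
  unfold pr
  exact (Nat.nth_strictMono Nat.infinite_setOfPred_prime).monotone (by omega)

lemma pr_inj {a b : ℕ} (ha : 1 ≤ a) (hb : 1 ≤ b) (h : pr a = pr b) : a = b := by
  rcases lt_trichotomy a b with h1 | h1 | h1
  · exact absurd h (pr_strictMono ha h1).ne
  · exact h1
  · exact absurd h.symm (pr_strictMono hb h1).ne

lemma primeCounting_pr (n : ℕ) (hn : 1 ≤ n) : Nat.primeCounting (pr n) = n := by
  have h1 : Nat.primeCounting' (Nat.nth Nat.Prime (n - 1) + 1) = n - 1 + 1 := by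
    unfold Nat.primeCounting'
    exact Nat.count_nth_succ_of_infinite Nat.infinite_setOfPred_prime (n - 1)
  unfold pr
  rw [Nat.primeCounting, h1]
  omega

/-- the indices without a large prime factor inject into `BD` -/
lemma card_bad (n : ℕ) (θ : ℝ) (hθ : 0 < θ) (f : ℕ → ℕ)
    (hf : ∀ k ∈ Icc 1 (n - 1), 1 ≤ f k ∧ f k ≤ n)
    (hinj : ∀ k ∈ Icc 1 (n - 1), ∀ k' ∈ Icc 1 (n - 1), f k = f k' → k = k') :
    (open Classical in ((Icc 1 (n - 1)).filter (fun k =>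
      ¬ ∃ l : ℕ, l.Prime ∧ l ∣ pr (f k) ^ 2 - 2 ∧ (n : ℝ) ^ θ < l)).card) ≤
      (BD (pr n) θ).card := by
  classical
  apply Finset.card_le_card_of_injOn (fun k => pr (f k))
  · intro k hk
    rw [Finset.mem_coe, Finset.mem_filter] at hk
    obtain ⟨hk1, hk2⟩ := hk
    obtain ⟨h1, h2⟩ := hf k hk1
    have hn : 1 ≤ n := h1.trans h2
    rw [Finset.mem_coe, BD, Finset.mem_filter, PR, Finset.mem_filter, Finset.mem_Icc]
    refine ⟨⟨⟨(pr_prime _).one_le, ?_⟩, pr_prime _⟩, ?_⟩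
    · rw [Nat.floor_natCast]
      exact pr_mono h2
    · intro l hl hdvd
      by_contra hcon
      push Not at hcon
      apply hk2
      refine ⟨l, hl, hdvd, lt_of_le_of_lt ?_ hcon⟩
      apply Real.rpow_le_rpow (Nat.cast_nonneg n) _ hθ.le
      exact_mod_cast le_pr n hn
  · intro k hk k' hk' h
    rw [Finset.mem_coe, Finset.mem_filter] at hk hk'
    exact hinj k hk.1 k' hk'.1 (pr_inj (hf k hk.1).1 (hf k' hk'.1).1 h)

theorem pf_FIN2 (hBAD : T_BAD) : T_FIN2 := by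
  classical
  have hGM := Pool.Agent.H30.PF.gm (Pool.Agent.H30.PF.tr Pool.Agent.H65.PF.sg)
    Pool.Agent.H65.PF.rt Pool.Agent.H48.PF.bt Pool.Agent.H30.PF.eu
  have hMR := Pool.Agent.H12.PF.mr
  have hEX := Pool.Agent.H30.PF.EX.ex (Pool.Agent.H74.PF.e1 hGM (Pool.Agent.H30.PF.M8.m8 hMR))
    (Pool.Agent.H74.PF.e2 hGM hMR)
  have hFA := Pool.Agent.H30.PF.fa hEX Pool.Agent.H74.PF.pn
  intro θ₁ θ₂ ε δ h1 h1' h2 h2' hε hδ
  obtain ⟨d, n₁, hd, hG⟩ := hFA ε hε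
  obtain ⟨x₁, hx₁⟩ := hBAD θ₁ (δ / 4) h1 h1' (by linarith)
  obtain ⟨x₂, hx₂⟩ := hBAD θ₂ (δ / 4) h2 h2' (by linarith)
  have hev : ∀ᶠ n : ℕ in Filter.atTop, (8 / δ : ℝ) ≤ (Real.log (n : ℝ)) ^ d := by
    have h3 := (tendsto_rpow_atTop hd).comp Pool.Agent.H30.PF.tends_log
    exact h3.eventually_ge_atTop _
  obtain ⟨n₂, hn₂⟩ := Filter.eventually_atTop.1 hev
  obtain ⟨n₃, hn₃⟩ := exists_nat_gt (8 / δ)
  refine ⟨max (max n₁ n₂) (max (max x₁ x₂) (max n₃ 1)), fun n hn => ?_⟩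
  have k1 : n₁ ≤ n := (le_max_left _ _).trans ((le_max_left _ _).trans hn)
  have k2 : n₂ ≤ n := (le_max_right _ _).trans ((le_max_left _ _).trans hn)
  have k3 : x₁ ≤ n := (le_max_left _ _).trans ((le_max_left _ _).trans ((le_max_right _ _).trans hn))
  have k4 : x₂ ≤ n := (le_max_right _ _).trans ((le_max_left _ _).trans ((le_max_right _ _).trans hn))
  have k5 : n₃ ≤ n := (le_max_left _ _).trans ((le_max_right _ _).trans ((le_max_right _ _).trans hn))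
  have k6 : 1 ≤ n := (le_max_right _ _).trans ((le_max_right _ _).trans ((le_max_right _ _).trans hn))
  have hnpr := le_pr n k6
  set S := Icc 1 (n - 1) with hS
  set G := S.filter (fun k => Good ε n k (n - k) ∧
      (∃ l : ℕ, l.Prime ∧ l ∣ pr k ^ 2 - 2 ∧ (n : ℝ) ^ θ₁ < l) ∧
      (∃ l : ℕ, l.Prime ∧ l ∣ pr (n - k) ^ 2 - 2 ∧ (n : ℝ) ^ θ₂ < l)) with hGdef
  set B0 := S.filter (fun k => ¬ Good ε n k (n - k)) with hB0
  set A1 := S.filter (fun k => ¬ ∃ l : ℕ, l.Prime ∧ l ∣ pr k ^ 2 - 2 ∧ (n : ℝ) ^ θ₁ < l) with hA1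
  set A2 := S.filter (fun k => ¬ ∃ l : ℕ, l.Prime ∧ l ∣ pr (n - k) ^ 2 - 2 ∧
    (n : ℝ) ^ θ₂ < l) with hA2
  have hcov : S ⊆ G ∪ (B0 ∪ (A1 ∪ A2)) := by
    intro k hk
    simp only [Finset.mem_union, hGdef, hB0, hA1, hA2, Finset.mem_filter]
    by_cases c0 : Good ε n k (n - k)
    · by_cases c1 : ∃ l : ℕ, l.Prime ∧ l ∣ pr k ^ 2 - 2 ∧ (n : ℝ) ^ θ₁ < l
      · by_cases c2 : ∃ l : ℕ, l.Prime ∧ l ∣ pr (n - k) ^ 2 - 2 ∧ (n : ℝ) ^ θ₂ < l
        · exact Or.inl ⟨hk, c0, c1, c2⟩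
        · exact Or.inr (Or.inr (Or.inr ⟨hk, c2⟩))
      · exact Or.inr (Or.inr (Or.inl ⟨hk, c1⟩))
    · exact Or.inr (Or.inl ⟨hk, c0⟩)
  have hcard : (S.card : ℝ) ≤ G.card + (B0.card + (A1.card + A2.card)) := by
    have := (Finset.card_le_card hcov).trans ((Finset.card_union_le _ _).trans
      (Nat.add_le_add_left ((Finset.card_union_le _ _).trans
        (Nat.add_le_add_left (Finset.card_union_le _ _) _)) _))
    exact_mod_cast this
  have hScard : (S.card : ℝ) = n - 1 := by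
    rw [hS, Nat.card_Icc, Nat.add_sub_cancel, Nat.cast_sub k6]
    norm_num
  have e0 : (B0.card : ℝ) ≤ n / (Real.log n) ^ d := hG n k1
  have e1 : (A1.card : ℝ) ≤ (bb θ₁ + δ / 4) * n := by
    have h3 := card_bad n θ₁ h1 (fun k => k) (fun k hk => by
      rw [Finset.mem_Icc] at hk
      omega) (fun k _ k' _ h => h)
    have h4 := hx₁ (pr n) (k3.trans hnpr)
    rw [primeCounting_pr n k6] at h4
    have h5 : (A1.card : ℝ) ≤ (BD (pr n) θ₁).card := by exact_mod_cast h3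
    exact h5.trans h4
  have e2 : (A2.card : ℝ) ≤ (bb θ₂ + δ / 4) * n := by
    have h3 := card_bad n θ₂ h2 (fun k => n - k) (fun k hk => by
      rw [Finset.mem_Icc] at hk
      omega) (fun k hk k' hk' h => by
      rw [Finset.mem_Icc] at hk hk'
      omega)
    have h4 := hx₂ (pr n) (k4.trans hnpr)
    rw [primeCounting_pr n k6] at h4
    have h5 : (A2.card : ℝ) ≤ (BD (pr n) θ₂).card := by exact_mod_cast h3
    exact h5.trans h4
  have hnpos : (0 : ℝ) < n := by exact_mod_cast k6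
  have e3 : (n : ℝ) / (Real.log n) ^ d ≤ δ / 8 * n := by
    have h3 := hn₂ n k2
    have h4 : (0 : ℝ) < 8 / δ := by positivity
    have h5 : 0 < (Real.log (n : ℝ)) ^ d := lt_of_lt_of_le h4 h3
    rw [div_le_iff₀ h5]
    have h6 : δ / 8 * (8 / δ) = 1 := by field_simp
    calc (n : ℝ) = n * (δ / 8 * (8 / δ)) := by rw [h6, mul_one]
      _ ≤ n * (δ / 8 * (Real.log (n : ℝ)) ^ d) := by gcongr
      _ = _ := by ring
  have e4 : (1 : ℝ) ≤ δ / 8 * n := by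
    have h3 : (8 / δ : ℝ) < n := hn₃.trans_le (by exact_mod_cast k5)
    rw [div_lt_iff₀ hδ] at h3
    linarith
  have e5 : (1 - bb θ₁ - bb θ₂ - δ) * n ≤ (G.card : ℝ) := by
    nlinarith
  exact e5

end Pool.Agent.H25.LF
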