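import Pool.Agent.H27.LS.Exist
import Pool.Agent.H30.BV.Targets
import Pool.Agent.H75.PS.Selberg
import Pool.Agent.H75.PS.Pair

/-!
Targets for MP_04ff0f_nt, large prime factors of `p_k ^ 2 - 2` and `p_m ^ 2 - 2`, `k + m = n`.
Board lf_modules.
-/

set_option autoImplicit false

open Finset Real ArithmeticFunction

namespace Pool.Agent.H25.LF

open Pool.Agent.H27.LS (hat)
open Pool.Agent.H30.PF (S8 pr Good)
open Pool.Agent.H30.BV (NX wx WX gg)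
open Pool.Agent.H75.PS (SP FF SS)

/-! ## Definitions -/

/-- the primes up to `y` -/
noncomputable def PR (y : ℝ) : Finset ℕ := (Icc 1 ⌊y⌋₊).filter Nat.Prime

/-- `d` divides `n ^ 2 - 2` -/
def Dv (d n : ℕ) : Prop := (d : ℤ) ∣ (n : ℤ) ^ 2 - 2

instance (d : ℕ) : DecidablePred (Dv d) :=
  fun n => inferInstanceAs (Decidable ((d : ℤ) ∣ (n : ℤ) ^ 2 - 2))

/-- the number of the primes `p ≤ y` with `d ∣ p ^ 2 - 2` -/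
noncomputable def NN (y : ℝ) (d : ℕ) : ℝ := (((PR y).filter (Dv d)).card : ℝ)

/-- the weight of the `n ≤ y` with `d ∣ n ^ 2 - 2` -/
noncomputable def LL (y : ℝ) (d : ℕ) : ℝ := ∑ n ∈ (Icc 1 ⌊y⌋₊).filter (Dv d), Λ n

/-- the smooth weight of the `n` with `d ∣ n ^ 2 - 2` at the scale `X` -/
noncomputable def WD (X : ℝ) (d : ℕ) : ℝ := ∑ n ∈ (Icc 1 (NX X)).filter (Dv d), wx X n

/-- the sum of `log l * f l` over the primes `y < l ≤ z` -/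
noncomputable def SL (y z : ℝ) (f : ℕ → ℝ) : ℝ :=
  ∑ l ∈ (PR z).filter (fun l : ℕ => y < (l : ℝ)), Real.log l * f l

/-- a combination of hats which is `1` on `[1 - M, 0]` and `0` on `[w, ∞)` -/
noncomputable def PH (w : ℝ) (M : ℕ) (u : ℝ) : ℝ :=
  (∑ m ∈ Icc 1 M, (m : ℝ) * (hat (u - w + m) - hat (u + m))) / w

open Classical in
/-- the primes `p ≤ x` for which `p ^ 2 - 2` has no prime factor `> x ^ θ` -/
noncomputable def BD (x : ℕ) (θ : ℝ) : Finset ℕ :=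
  (PR x).filter (fun p => ∀ l : ℕ, l.Prime → l ∣ p ^ 2 - 2 → (l : ℝ) ≤ (x : ℝ) ^ θ)

/-- the density bound: `θ / 2` up to `1 / 2`, then `1 / 4 + log (1 / (2 (1 - θ)))` -/
noncomputable def bb (θ : ℝ) : ℝ :=
  if θ ≤ 1 / 2 then θ / 2 else 1 / 4 + Real.log (1 / (2 * (1 - θ)))

/-! ## Part I: the prime number theorem -/

/-- DIV. Dirichlet's divisor sum and Stirling's formula in one statement. -/
def T_DIV : Prop := ∃ C c : ℝ, ∀ y : ℝ, 1 ≤ y →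
  |∑ n ∈ Icc 1 ⌊y⌋₊, (Real.log n - (n.divisors.card : ℝ) + c)| ≤ C * √y

/-- MU1. The Möbius function has mean value zero. -/
def T_MU1 : Prop := ∀ δ : ℝ, 0 < δ → ∃ x₀ : ℝ, ∀ x : ℝ, x₀ ≤ x →
  |∑ n ∈ Icc 1 ⌊x⌋₊, ((moebius n : ℤ) : ℝ)| ≤ δ * x

/-- PNT. The prime number theorem. -/
def T_PNT : Prop := ∀ δ : ℝ, 0 < δ → ∃ x₀ : ℝ, ∀ x : ℝ, x₀ ≤ x →
  |Chebyshev.psi x - x| ≤ δ * x

/-! ## Part II: the Brun-Titchmarsh inequality with the constant two -/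

/-- SEL. Selberg's sieve with the weights bounded by one. -/
def T_SEL : Prop := ∀ (s : BoundingSieve) (R : ℕ), 1 ≤ R →
  s.siftedSum ≤ s.totalMass * (SS s R)⁻¹ +
    ∑ d1 ∈ s.prodPrimes.divisors with d1 ≤ R, ∑ d2 ∈ s.prodPrimes.divisors with d2 ≤ R,
      |s.rem (d1.lcm d2)|

/-- HAR. Lower bound for the sum of `1 / φ` over the squarefree numbers. -/
def T_HAR : Prop := ∀ z : ℕ,
  Real.log (z + 1) ≤ FF (fun p => 1 / ((p : ℝ) - 1)) (Nat.primesLE z) z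

/-- SDF. The same for the numbers prime to `d`. -/
def T_SDF : Prop := ∀ d z : ℕ, 0 < d →
  Real.log (z + 1) ≤ (d : ℝ) / d.totient * FF (fun p => 1 / ((p : ℝ) - 1)) (SP d z) z

/-- BTZ. The Brun-Titchmarsh inequality with a parameter. -/
def T_BTZ : Prop := ∀ x d a z : ℕ, 0 < d → 1 ≤ z →
  (((Icc 1 x).filter (fun p => p.Prime ∧ p % d = a % d)).card : ℝ) ≤
    x / (d.totient * Real.log (z + 1)) + z + (z : ℝ) ^ 2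

/-- BTS. The Brun-Titchmarsh inequality with the constant two. -/
def T_BTS : Prop := ∀ δ : ℝ, 0 < δ → ∃ Y : ℝ, 2 ≤ Y ∧ ∀ (x : ℝ) (d a : ℕ), 1 ≤ d → Y * d ≤ x →
  (((PR x).filter (fun p => p % d = a % d)).card : ℝ) ≤
    (2 + δ) * x / (d.totient * Real.log (x / d))

/-- NNB. The number of the primes `p` with `l ^ a ∣ p ^ 2 - 2`. -/
def T_NNB : Prop := ∀ δ : ℝ, 0 < δ → ∃ Y : ℝ, 2 ≤ Y ∧ ∀ (x : ℝ) (l a : ℕ), l.Prime → l ≠ 2 →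
  1 ≤ a → Y * l ^ a ≤ x →
    NN x (l ^ a) ≤ (if S8 l then (2 : ℝ) else 0) * ((2 + δ) * x / ((l ^ a).totient *
      Real.log (x / l ^ a)))

/-- MER. Mertens' theorem for the square roots of two. -/
def T_MER : Prop := ∃ C : ℝ, 0 < C ∧ ∀ y z : ℝ, 1 ≤ y → y ≤ z →
  SL y z gg ≤ Real.log (z / y) + C

/-! ## Part III: primes in progressions on average over the prime moduli -/

/-- BVB. One dyadic block of moduli. -/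
def T_BVB : Prop := ∃ C : ℝ, 0 < C ∧ ∀ X K : ℝ, 30 ≤ X → 2 ≤ K → 2 * K ≤ X →
  SL K (2 * K) (fun l => |WD X l - WX X * gg l|) ≤
    C * Real.log X ^ 4 * (X ^ (1 / 8 : ℝ) * K ^ (3 / 2 : ℝ) + √X * K + X ^ (31 / 32 : ℝ) + X / K)

/-- BVP. All prime moduli up to `X ^ (1 / 2 - ε)`. -/
def T_BVP : Prop := ∀ ε δ : ℝ, 0 < ε → 0 < δ → ∃ X₀ : ℝ, ∀ X : ℝ, X₀ ≤ X →
  SL (Real.log X ^ 6) (X ^ (1 / 2 - ε)) (fun l => |WD X l - WX X * gg l|) ≤ δ * X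

/-- TRZ. A trapezoid as a combination of hats. -/
def T_TRZ : Prop := ∀ (w : ℝ) (M : ℕ) (u : ℝ), 0 < w → w < 1 → 1 ≤ M →
  (if u ≤ 0 then (1 : ℝ) else 0) ≤ PH w M u + (1 + M) * (if u ≤ 1 - M then 1 else 0) ∧
  PH w M u ≤ if u ≤ w then 1 else 0

/-- MAJ. The sharp weight is majorised by smooth weights. -/
def T_MAJ : Prop := ∀ (w : ℝ) (M : ℕ) (x : ℝ), 0 < w → w < 1 → 1 ≤ M → 0 < x →
  (∀ d : ℕ, LL x d ≤ (∑ m ∈ Icc 1 M, (m : ℝ) * (WD (x * Real.exp (w - m)) d -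
    WD (x * Real.exp (-m)) d)) / w + (1 + M) * LL (x * Real.exp (1 - M)) d) ∧
  (∑ m ∈ Icc 1 M, (m : ℝ) * (WX (x * Real.exp (w - m)) - WX (x * Real.exp (-m)))) / w ≤
    Chebyshev.psi (x * Real.exp w)

/-- LLN. Prime powers are negligible. -/
def T_LLN : Prop := ∀ (y : ℝ) (d : ℕ), 1 ≤ y →
  LL y d ≤ Real.log y * NN y d + 2 * √y * Real.log y

/-- CNV. From the weight to the number. -/
def T_CNV : Prop := ∀ (δ x : ℝ) (d : ℕ), 0 < δ → δ < 1 → 1 < x →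
  NN x d * Real.log x ≤ LL x d / (1 - δ) + Real.log x * NN (x ^ (1 - δ)) d

/-- LBF. The weight of the pairs with a prime `l` of middle size. -/
def T_LBF : Prop := ∀ ε δ : ℝ, 0 < ε → ε < 1 / 2 → 0 < δ → ∃ x₀ : ℝ, ∀ x : ℝ, x₀ ≤ x →
  ∀ y : ℝ, Real.log x ^ 6 ≤ y → y ≤ x ^ (1 / 2 - ε) →
    SL (Real.log x ^ 6) y (LL x) ≤ x * Real.log y + δ * x * Real.log x

/-! ## Part IV: sums over the primes -/

/-- CRD. A crude bound for a range of primes `l`. -/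
def T_CRD : Prop := ∀ θ : ℝ, 0 < θ → θ < 1 → ∃ C x₀ : ℝ, 0 < C ∧ ∀ x : ℝ, x₀ ≤ x →
  ∀ y z : ℝ, 1 ≤ y → y ≤ z → z ≤ x ^ θ →
    SL y z (NN x) ≤ C * x / Real.log x * (Real.log (z / y) + C)

/-- LOW. The primes `l ≤ x ^ θ` with `θ ≤ 1 / 2`. -/
def T_LOW : Prop := ∀ θ δ : ℝ, 0 < θ → θ ≤ 1 / 2 → 0 < δ → ∃ x₀ : ℝ, ∀ x : ℝ, x₀ ≤ x →
  SL 1 (x ^ θ) (NN x) ≤ (θ + δ) * x

/-- HIG. The primes `x ^ (1 / 2) < l ≤ x ^ θ`. -/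
def T_HIG : Prop := ∀ θ δ : ℝ, 1 / 2 ≤ θ → θ < 1 → 0 < δ → ∃ x₀ : ℝ, ∀ x : ℝ, x₀ ≤ x →
  SL (x ^ (1 / 2 : ℝ)) (x ^ θ) (NN x) ≤ (2 * Real.log (1 / (2 * (1 - θ))) + δ) * x

/-- PPW. The higher powers of the primes `l ≤ x ^ θ`. -/
def T_PPW : Prop := ∀ θ δ : ℝ, 0 < θ → θ < 1 → 0 < δ → ∃ x₀ : ℝ, ∀ x : ℝ, x₀ ≤ x →
  ∑ a ∈ Icc 2 ⌊x⌋₊, SL 1 (x ^ θ) (fun l => NN x (l ^ a)) ≤ δ * x

/-- CHB. Chebyshev's method. -/
def T_CHB : Prop := ∀ θ δ : ℝ, 0 < θ → θ < 1 → 0 < δ → ∃ x₀ : ℕ, ∀ x : ℕ, x₀ ≤ x →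
  2 * Real.log x * ((BD x θ).card : ℝ) ≤ SL 1 ((x : ℝ) ^ θ) (NN x) + δ * x

/-- BAD. The density of the primes without a large prime factor of `p ^ 2 - 2`. -/
def T_BAD : Prop := ∀ θ δ : ℝ, 0 < θ → θ < 1 → 0 < δ → ∃ x₀ : ℕ, ∀ x : ℕ, x₀ ≤ x →
  ((BD x θ).card : ℝ) ≤ (bb θ + δ) * Nat.primeCounting x

open Classical in
/-- FIN. The splits. -/
def T_FIN : Prop := ∀ θ₁ θ₂ ε : ℝ, 0 < θ₁ → θ₁ < 1 → 0 < θ₂ → θ₂ < 1 → bb θ₁ + bb θ₂ < 1 →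
  0 < ε → ∃ (c : ℝ) (n₀ : ℕ), 0 < c ∧ ∀ n : ℕ, n₀ ≤ n →
    c * n ≤ (((Icc 1 (n - 1)).filter (fun k => Good ε n k (n - k) ∧
      (∃ l : ℕ, l.Prime ∧ l ∣ pr k ^ 2 - 2 ∧ (n : ℝ) ^ θ₁ < l) ∧
      (∃ l : ℕ, l.Prime ∧ l ∣ pr (n - k) ^ 2 - 2 ∧ (n : ℝ) ^ θ₂ < l))).card : ℝ)

end Pool.Agent.H25.LF
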